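import Pool.Agent.helper17.MLG.Spec

/-!
# Project mlg, row EXI: existence of minimisers
-/

set_option autoImplicit false
set_option linter.unusedSectionVars false

namespace Pool.Agent.MLG

open MeasureTheory Set Filter Topology Module
open scoped ENNReal ContDiff

section EXI

variable {V : Type} [NormedAddCommGroup V] [InnerProductSpace ℝ V] [FiniteDimensional ℝ V] [MeasurableSpace V]
  [BorelSpace V] [Group V]

theorem EXI_sd (E F C : Set V) (hE : MeasurableSet E) (hF : MeasurableSet F) (hC : MeasurableSet C) :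
    vol V (symmDiff E F ∩ C) ≤ ∫⁻ x in C, ENNReal.ofReal |ind E x - ind F x| ∂(vol V) := by
  have hm : MeasurableSet (symmDiff E F ∩ C) := (hE.symmDiff hF).inter hC
  calc vol V (symmDiff E F ∩ C) = ∫⁻ _ in symmDiff E F ∩ C, 1 ∂(vol V) := by
        rw [setLIntegral_const, one_mul]
    _ ≤ ∫⁻ x in symmDiff E F ∩ C, ENNReal.ofReal |ind E x - ind F x| ∂(vol V) := by
        refine setLIntegral_mono' hm fun x hx => ?_
        unfold ind
        rcases hx.1 with h | h
        · rw [Set.indicator_of_mem h.1, Set.indicator_of_notMem h.2]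
          norm_num
        · rw [Set.indicator_of_mem h.1, Set.indicator_of_notMem h.2]
          norm_num
    _ ≤ _ := lintegral_mono_set Set.inter_subset_right

theorem EXI_isU (E : Set V) (hE : MeasurableSet E) : IsU (ind E) := by
  refine ⟨measurable_const.indicator hE, fun x => ?_, fun x => ?_⟩
  · unfold ind
    by_cases h : x ∈ E
    · rw [Set.indicator_of_mem h]; norm_num
    · rw [Set.indicator_of_notMem h]
  · unfold ind
    by_cases h : x ∈ E
    · rw [Set.indicator_of_mem h]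
    · rw [Set.indicator_of_notMem h]; norm_num

theorem EXI_img (hV : IsLie V) (hμ : (vol V).IsHaarMeasure) (g : V) (E : Set V) (hE : MeasurableSet E) :
    MeasurableSet ((fun x => g * x) '' E) ∧ vol V ((fun x => g * x) '' E) = vol V E := by
  haveI := top hV
  haveI := hμ
  rw [Set.image_mul_left]
  exact ⟨(continuous_mul_left g⁻¹).measurable hE, measure_preimage_mul (vol V) g⁻¹ E⟩

theorem EXI_le_prof (E : Set V) (v : ℝ) (hE : MeasurableSet E) (hv : vol V E = ENNReal.ofReal v) :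
    prof V v ≤ per E := by
  unfold prof
  exact iInf_le_of_le E (iInf_le_of_le hE (iInf_le_of_le hv le_rfl))

/-- A sequence with volumes `v` and perimeters tending to the infimum. -/
theorem EXI_seq (v : ℝ) (h : prof V v < ⊤) (k : ℕ) : ∃ E : Set V, MeasurableSet E ∧
    vol V E = ENNReal.ofReal v ∧ per E ≤ prof V v + ENNReal.ofReal (1 / ((k : ℝ) + 1)) := by
  have h1 : prof V v < prof V v + ENNReal.ofReal (1 / ((k : ℝ) + 1)) :=
    ENNReal.lt_add_right h.ne (ENNReal.ofReal_pos.2 (by positivity)).ne'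
  have h2 : (⨅ (E : Set V) (_ : MeasurableSet E) (_ : vol V E = ENNReal.ofReal v), per E) <
      prof V v + ENNReal.ofReal (1 / ((k : ℝ) + 1)) := h1
  simp only [iInf_lt_iff] at h2
  obtain ⟨E, hE, hv, hp⟩ := h2
  exact ⟨E, hE, hv, hp.le⟩

end EXI

theorem EXI (hCON : CON_stmt) (hSSA : SSA_stmt) (hNVA : NVA_stmt) (hLCP : LCP_stmt) (hLSC : LSC_stmt)
    (hPER : PER_stmt) (hSPL : SPL_stmt) (hVBL : VBL_stmt) (hMES : MES_stmt) : EXI_stmt := by
  intro V _ _ _ _ _ _ hV hn v hv
  have hμ := (hMES V hV).1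
  haveI := top hV
  haveI := hμ
  haveI : ProperSpace V := FiniteDimensional.proper_real V
  obtain ⟨hconc, hmono, hprof⟩ := hCON V hV hn
  obtain ⟨-, hssa⟩ := hSSA V hV hn
  obtain ⟨hPtv, -, -, hPtr, -⟩ := hPER V hV
  have hIp0 : 0 ≤ Ip V v := ENNReal.toReal_nonneg
  obtain ⟨M, hM⟩ : ∃ M, M = Ip V v + 1 := ⟨_, rfl⟩
  have hM0 : 0 < M := by linarith
  obtain ⟨r, κ, hr, hκ, hnva⟩ := hNVA V hV v M hv hM0
  have hpt : prof V v < ⊤ := by rw [hprof v hv]; exact ENNReal.ofReal_lt_top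
  choose E hEm hEv hEp using EXI_seq (V := V) v hpt
  have hEM : ∀ k, per (E k) ≤ ENNReal.ofReal M := by
    intro k
    refine (hEp k).trans ?_
    rw [hprof v hv, ← ENNReal.ofReal_add hIp0 (by positivity), hM]
    apply ENNReal.ofReal_le_ofReal
    have : 1 / ((k : ℝ) + 1) ≤ 1 := by
      rw [div_le_one (by positivity)]
      linarith [Nat.cast_nonneg (α := ℝ) k]
    linarith
  have hx : ∀ k, ∃ x : V, ENNReal.ofReal κ ≤ vol V (E k ∩ bl x r) := fun k => hnva (E k) (hEm k) (hEv k) (hEM k)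
  choose x hx using hx
  -- translate
  obtain ⟨A, hA⟩ : ∃ A : ℕ → Set V, A = fun k => (fun y => (x k)⁻¹ * y) '' (E k) := ⟨_, rfl⟩
  have hAm : ∀ k, MeasurableSet (A k) := fun k => by
    rw [hA]; exact (EXI_img hV hμ _ _ (hEm k)).1
  have hAv : ∀ k, vol V (A k) = ENNReal.ofReal v := fun k => by
    rw [hA]; exact (EXI_img hV hμ _ _ (hEm k)).2.trans (hEv k)
  have hAp : ∀ k, per (A k) = per (E k) := fun k => by
    rw [hA]; exact hPtr _ _ (hEm k)
  have hAx : ∀ k, ENNReal.ofReal κ ≤ vol V (A k ∩ Metric.closedBall (1 : V) r) := by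
    intro k
    refine (hx k).trans ?_
    have h1 : MeasurableSet (E k ∩ bl (x k) r) := by
      refine (hEm k).inter ?_
      unfold bl
      exact (EXI_img hV hμ _ _ measurableSet_ball).1
    rw [← (EXI_img hV hμ (x k)⁻¹ _ h1).2]
    refine measure_mono ?_
    rintro _ ⟨y, ⟨hy1, hy2⟩, rfl⟩
    refine ⟨?_, ?_⟩
    · rw [hA]
      exact ⟨y, hy1, rfl⟩
    · obtain ⟨w, hw, rfl⟩ := hy2
      show (x k)⁻¹ * (x k * w) ∈ Metric.closedBall (1 : V) r
      rw [inv_mul_cancel_left]
      exact Metric.ball_subset_closedBall hw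
  obtain ⟨φ, F, hφ, hF, hL⟩ := hLCP V hV A M hAm (fun k => by rw [hAp]; exact hEM k)
  obtain ⟨C, hC, hspl⟩ := hSPL V hV
  obtain ⟨hvF, hsp⟩ := hspl (fun k => A (φ k)) F v hv (fun k => hAm _) (fun k => hAv _) hF hL
  have hvFt : vol V F ≠ ⊤ := (hvF.trans_lt ENNReal.ofReal_lt_top).ne
  -- positive volume
  have hF0 : ENNReal.ofReal κ ≤ vol V F := by
    have h2 := hL (Metric.closedBall (1 : V) r) (isCompact_closedBall _ _)
    have h4 := h2.const_add (vol V F)
    rw [add_zero] at h4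
    refine ge_of_tendsto' h4 fun k => ?_
    refine (hAx (φ k)).trans ?_
    refine (measure_mono (t := F ∪ (symmDiff (A (φ k)) F ∩ Metric.closedBall (1 : V) r)) ?_).trans
      ((measure_union_le _ _).trans (add_le_add le_rfl
        (EXI_sd _ _ _ (hAm _) hF Metric.isClosed_closedBall.measurableSet)))
    intro y hy
    by_cases h : y ∈ F
    · exact Or.inl h
    · exact Or.inr ⟨Or.inl ⟨hy.1, h⟩, hy.2⟩
  -- lower semicontinuity
  have hperF : per F ≤ prof V v := by
    rw [hPtv F hF]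
    refine (hLSC V hV (fun k => ind (A (φ k))) (ind F) (fun k => EXI_isU _ (hAm _)) (EXI_isU _ hF) hL).trans ?_
    have h5 : Tendsto (fun k : ℕ => prof V v + ENNReal.ofReal (1 / ((φ k : ℕ) + 1 : ℝ))) atTop (𝓝 (prof V v)) := by
      have h6 : Tendsto (fun k : ℕ => ENNReal.ofReal (1 / ((k : ℝ) + 1))) atTop (𝓝 0) := by
        have := ENNReal.tendsto_ofReal (tendsto_one_div_add_atTop_nhds_zero_nat (𝕜 := ℝ))
        rwa [ENNReal.ofReal_zero] at this
      have h7 := (h6.comp hφ.tendsto_atTop).const_add (prof V v)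
      rw [add_zero] at h7
      exact h7
    rw [← h5.liminf_eq]
    refine liminf_le_liminf (Eventually.of_forall fun k => ?_)
    rw [← hPtv _ (hAm _), hAp]
    exact hEp (φ k)
  obtain ⟨v₁, hv₁⟩ : ∃ v₁, v₁ = (vol V F).toReal := ⟨_, rfl⟩
  have hv₁F : vol V F = ENNReal.ofReal v₁ := by rw [hv₁, ENNReal.ofReal_toReal hvFt]
  have hv₁0 : 0 < v₁ := by
    rw [hv₁F] at hF0
    exact hκ.trans_le ((ENNReal.ofReal_le_ofReal_iff' .. |>.1 hF0).resolve_right (not_le.2 hκ))
  have hv₁v : v₁ ≤ v := by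
    rw [hv₁F] at hvF
    exact (ENNReal.ofReal_le_ofReal_iff hv.le).1 hvF
  rcases eq_or_lt_of_le hv₁v with heq | hlt
  · have hFv : vol V F = ENNReal.ofReal v := by rw [hv₁F, heq]
    exact ⟨F, hF, hFv, le_antisymm hperF (EXI_le_prof F v hF hFv)⟩
  · exfalso
    have hss := hssa v₁ (v - v₁) hv₁0 (by linarith)
    rw [show v₁ + (v - v₁) = v by ring] at hss
    obtain ⟨gap, hgap⟩ : ∃ gap, gap = Ip V v₁ + Ip V (v - v₁) - Ip V v := ⟨_, rfl⟩
    have hgap0 : 0 < gap := by rw [hgap]; linarith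
    have hcont : ContinuousOn (Ip V) (Ioi 0) := hconc.continuousOn isOpen_Ioi
    have hc1 : ContinuousAt (Ip V) v₁ := hcont.continuousAt (Ioi_mem_nhds hv₁0)
    have hc2 : ContinuousAt (fun s => Ip V (v - s)) v₁ := by
      have h8 : ContinuousAt (Ip V) (v - v₁) := hcont.continuousAt (Ioi_mem_nhds (by linarith))
      exact ContinuousAt.comp (g := Ip V) (f := fun s => v - s) h8 (by fun_prop)
    have hc3 := hc1.add hc2
    have hc4 : ∀ᶠ s in 𝓝 v₁, Ip V v₁ + Ip V (v - v₁) - gap / 4 < Ip V s + Ip V (v - s) :=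
      (tendsto_order.1 hc3).1 _ (by
        show Ip V v₁ + Ip V (v - v₁) - gap / 4 < Ip V v₁ + Ip V (v - v₁)
        linarith)
    obtain ⟨δ, hδ, hδ2⟩ := Metric.eventually_nhds_iff.1 hc4
    obtain ⟨ε, hε0, hε1, hε2, hε3, hε4⟩ : ∃ ε : ℝ, 0 < ε ∧ ε < δ ∧ C * ε ≤ gap / 4 ∧ ε < v₁ ∧ ε < v - v₁ := by
      refine ⟨min (min (δ / 2) (gap / (4 * C))) (min (v₁ / 2) ((v - v₁) / 2)), ?_, ?_, ?_, ?_, ?_⟩
      · have h9 : 0 < v - v₁ := by linarith
        positivity
      · exact ((min_le_left _ _).trans (min_le_left _ _)).trans_lt (by linarith)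
      · have h9 : min (min (δ / 2) (gap / (4 * C))) (min (v₁ / 2) ((v - v₁) / 2)) ≤ gap / (4 * C) :=
          (min_le_left _ _).trans (min_le_right _ _)
        calc C * min (min (δ / 2) (gap / (4 * C))) (min (v₁ / 2) ((v - v₁) / 2)) ≤ C * (gap / (4 * C)) :=
              mul_le_mul_of_nonneg_left h9 hC.le
          _ = gap / 4 := by field_simp
      · exact ((min_le_right _ _).trans (min_le_left _ _)).trans_lt (by linarith)
      · exact ((min_le_right _ _).trans (min_le_right _ _)).trans_lt (by linarith)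
    have h10 : ∀ᶠ k : ℕ in atTop, 1 / ((φ k : ℝ) + 1) < gap / 4 := by
      have h11 := (tendsto_one_div_add_atTop_nhds_zero_nat (𝕜 := ℝ)).comp hφ.tendsto_atTop
      exact (tendsto_order.1 h11).2 _ (by positivity)
    obtain ⟨k, ⟨S, hS, hS1, hS2, hS3⟩, hk⟩ := ((hsp ε hε0).and h10).exists
    -- volumes
    obtain ⟨s, hs⟩ : ∃ s, s = (vol V (A (φ k) ∩ S)).toReal := ⟨_, rfl⟩
    have hSt : vol V (A (φ k) ∩ S) ≠ ⊤ := by
      refine ((measure_mono Set.inter_subset_left).trans_lt ?_).ne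
      rw [hAv]
      exact ENNReal.ofReal_lt_top
    have hsS : vol V (A (φ k) ∩ S) = ENNReal.ofReal s := by rw [hs, ENNReal.ofReal_toReal hSt]
    have hs0 : 0 ≤ s := by rw [hs]; exact ENNReal.toReal_nonneg
    have hs1 : v₁ ≤ s + ε := by
      have h12 : ENNReal.ofReal v₁ ≤ ENNReal.ofReal (s + ε) := by
        rw [ENNReal.ofReal_add hs0 hε0.le, ← hv₁F, ← hsS]
        exact hS2
      exact (ENNReal.ofReal_le_ofReal_iff (by linarith)).1 h12
    have hs2 : s ≤ v₁ + ε := by
      have h12 : ENNReal.ofReal s ≤ ENNReal.ofReal (v₁ + ε) := by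
        rw [ENNReal.ofReal_add hv₁0.le hε0.le, ← hv₁F, ← hsS]
        exact hS3
      exact (ENNReal.ofReal_le_ofReal_iff (by linarith)).1 h12
    have hs3 : 0 < s := by linarith
    have hs4 : s < v := by linarith
    have hdiff : vol V (A (φ k) \ S) = ENNReal.ofReal (v - s) := by
      have h13 : vol V (A (φ k) ∩ S) + vol V (A (φ k) \ S) = vol V (A (φ k)) := measure_inter_add_sdiff _ hS
      rw [hAv, hsS] at h13
      have h14 : ENNReal.ofReal v = ENNReal.ofReal s + ENNReal.ofReal (v - s) := by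
        rw [← ENNReal.ofReal_add hs0 (by linarith)]
        congr 1
        ring
      rw [h14] at h13
      exact (ENNReal.add_right_inj ENNReal.ofReal_ne_top).1 h13
    have h15 := EXI_le_prof (A (φ k) ∩ S) s ((hAm _).inter hS) hsS
    have h16 := EXI_le_prof (A (φ k) \ S) (v - s) ((hAm _).diff hS) hdiff
    rw [hprof s hs3] at h15
    rw [hprof (v - s) (by linarith)] at h16
    have h17 : ENNReal.ofReal (Ip V s + Ip V (v - s)) ≤
        ENNReal.ofReal (Ip V v + 1 / ((φ k : ℝ) + 1) + C * ε) := by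
      have hI1 : 0 ≤ Ip V s := ENNReal.toReal_nonneg
      have hI2 : 0 ≤ Ip V (v - s) := ENNReal.toReal_nonneg
      rw [ENNReal.ofReal_add hI1 hI2,
        ENNReal.ofReal_add (p := Ip V v + 1 / ((φ k : ℝ) + 1)) (by positivity) (by positivity),
        ENNReal.ofReal_add (p := Ip V v) hIp0 (by positivity)]
      refine (add_le_add h15 h16).trans (hS1.trans (add_le_add ?_ le_rfl))
      rw [hAp, ← hprof v hv]
      exact hEp (φ k)
    have h18 : Ip V s + Ip V (v - s) ≤ Ip V v + 1 / ((φ k : ℝ) + 1) + C * ε :=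
      (ENNReal.ofReal_le_ofReal_iff (by positivity)).1 h17
    have h19 : Ip V v₁ + Ip V (v - v₁) - gap / 4 < Ip V s + Ip V (v - s) := by
      apply hδ2
      rw [Real.dist_eq, abs_lt]
      constructor <;> linarith
    linarith

end Pool.Agent.MLG
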