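import Pool.Agent.helper17.MLG.Spec

/-!
# Project mlg, row LCP: local compactness
-/

set_option autoImplicit false
set_option linter.unusedSectionVars false

namespace Pool.Agent.MLG

open MeasureTheory Set Filter Topology Module
open scoped ENNReal ContDiff

section LCP

variable {V : Type} [NormedAddCommGroup V] [InnerProductSpace ℝ V] [FiniteDimensional ℝ V] [MeasurableSpace V]
  [BorelSpace V] [Group V]

theorem LCP_bl (x : V) (r : ℝ) : bl x r = (fun y => x⁻¹ * y) ⁻¹' Metric.ball (1 : V) r := by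
  unfold bl
  exact Set.image_mul_left

theorem LCP_fin (hV : IsLie V) (hμ : (vol V).IsHaarMeasure) (r : ℝ) : vol V (Metric.ball (1 : V) r) < ⊤ := by
  haveI := top hV
  haveI := hμ
  haveI : ProperSpace V := FiniteDimensional.proper_real V
  exact Metric.isBounded_ball.measure_lt_top

theorem LCP_pos (hV : IsLie V) (hμ : (vol V).IsHaarMeasure) (r : ℝ) (hr : 0 < r) :
    0 < vol V (Metric.ball (1 : V) r) := by
  haveI := top hV
  haveI := hμ
  exact Metric.isOpen_ball.measure_pos (vol V) ⟨1, Metric.mem_ball_self hr⟩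

theorem LCP_meas (hV : IsLie V) (x : V) (r : ℝ) : MeasurableSet (bl x r) := by
  haveI := top hV
  rw [LCP_bl]
  exact (Metric.isOpen_ball.preimage (continuous_mul_left x⁻¹)).measurableSet

theorem LCP_vbl (hV : IsLie V) (hμ : (vol V).IsHaarMeasure) (x : V) (r : ℝ) :
    vol V (bl x r) = vol V (Metric.ball (1 : V) r) := by
  haveI := top hV
  haveI := hμ
  rw [LCP_bl, measure_preimage_mul]

theorem LCP_cont (hV : IsLie V) (hμ : (vol V).IsHaarMeasure) (r : ℝ) (x : V) :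
    Tendsto (fun x' : V => vol V (symmDiff (bl x' r) (bl x r))) (𝓝 x) (𝓝 0) := by
  haveI := top hV
  haveI := hμ
  haveI : ProperSpace V := FiniteDimensional.proper_real V
  obtain ⟨f, hf0⟩ : ∃ f : V → C(V, V), f = fun a => ⟨fun y => a⁻¹ * y, continuous_mul_left a⁻¹⟩ := ⟨_, rfl⟩
  have hf : Continuous f := by
    refine ContinuousMap.continuous_of_continuous_uncurry f ?_
    have h1 : Function.uncurry (fun a y => f a y) = fun p : V × V => p.1⁻¹ * p.2 := by
      funext p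
      rw [hf0]
      rfl
    rw [h1]
    exact (continuous_fst.inv).mul continuous_snd
  have h := tendsto_measure_symmDiff_preimage_nhds_zero (μ := vol V) (ν := vol V) (hf.tendsto x)
    (s := Metric.ball (1 : V) r)
    (Eventually.of_forall fun a => by
      rw [hf0]
      exact measurePreserving_mul_left (vol V) a⁻¹)
    (by
      rw [hf0]
      exact measurePreserving_mul_left (vol V) x⁻¹)
    measurableSet_ball.nullMeasurableSet (LCP_fin hV hμ r).ne
  simp only [LCP_bl]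
  rw [hf0] at h
  exact h

/-- the volume of the part of `A` in the small ball about `x` -/
noncomputable def LCP_h (r : ℝ) (A : Set V) (x : V) : ℝ := (vol V (A ∩ bl x r)).toReal

theorem LCP_finA (hV : IsLie V) (hμ : (vol V).IsHaarMeasure) (r : ℝ) (A : Set V) (x : V) :
    vol V (A ∩ bl x r) < ⊤ :=
  (measure_mono Set.inter_subset_right).trans_lt (by
    rw [LCP_vbl hV hμ]
    exact LCP_fin hV hμ r)

theorem LCP_hle (hV : IsLie V) (hμ : (vol V).IsHaarMeasure) (r : ℝ) (A : Set V) (x : V) :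
    LCP_h r A x ≤ (vol V (Metric.ball (1 : V) r)).toReal := by
  unfold LCP_h
  refine ENNReal.toReal_mono (LCP_fin hV hμ r).ne ?_
  rw [← LCP_vbl hV hμ x r]
  exact measure_mono Set.inter_subset_right

theorem LCP_h0 (r : ℝ) (A : Set V) (x : V) : 0 ≤ LCP_h r A x := ENNReal.toReal_nonneg

theorem LCP_sdfin (hV : IsLie V) (hμ : (vol V).IsHaarMeasure) (r : ℝ) (x x' : V) :
    vol V (symmDiff (bl x' r) (bl x r)) < ⊤ := by
  have h1 : symmDiff (bl x' r) (bl x r) ⊆ bl x' r ∪ bl x r := by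
    intro y hy
    rcases hy with hy | hy
    · exact Or.inl hy.1
    · exact Or.inr hy.1
  refine (measure_mono h1).trans_lt ((measure_union_le _ _).trans_lt ?_)
  rw [LCP_vbl hV hμ, LCP_vbl hV hμ]
  exact ENNReal.add_lt_top.2 ⟨LCP_fin hV hμ r, LCP_fin hV hμ r⟩

theorem LCP_hsub (hV : IsLie V) (hμ : (vol V).IsHaarMeasure) (r : ℝ) (A : Set V) (x x' : V) :
    |LCP_h r A x' - LCP_h r A x| ≤ (vol V (symmDiff (bl x' r) (bl x r))).toReal := by
  have key : ∀ a b : V, vol V (A ∩ bl a r) ≤ vol V (A ∩ bl b r) + vol V (symmDiff (bl a r) (bl b r)) := by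
    intro a b
    refine (measure_mono (t := (A ∩ bl b r) ∪ symmDiff (bl a r) (bl b r)) ?_).trans (measure_union_le _ _)
    intro y hy
    by_cases h : y ∈ bl b r
    · exact Or.inl ⟨hy.1, h⟩
    · exact Or.inr (Or.inl ⟨hy.2, h⟩)
  have key2 : ∀ a b : V, LCP_h r A a ≤ LCP_h r A b + (vol V (symmDiff (bl a r) (bl b r))).toReal := by
    intro a b
    unfold LCP_h
    rw [← ENNReal.toReal_add (LCP_finA hV hμ r A b).ne (LCP_sdfin hV hμ r b a).ne]
    exact ENNReal.toReal_mono (ENNReal.add_lt_top.2 ⟨LCP_finA hV hμ r A b, LCP_sdfin hV hμ r b a⟩).ne (key a b)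
  rw [abs_le]
  have h1 := key2 x' x
  have h2 := key2 x x'
  rw [symmDiff_comm (bl x r) (bl x' r)] at h2
  constructor <;> linarith

theorem LCP_hcont (hV : IsLie V) (hμ : (vol V).IsHaarMeasure) (r : ℝ) (A : Set V) :
    Continuous (LCP_h r A) := by
  rw [continuous_iff_continuousAt]
  intro x
  unfold ContinuousAt
  rw [tendsto_iff_norm_sub_tendsto_zero]
  have h1 : Tendsto (fun x' : V => (vol V (symmDiff (bl x' r) (bl x r))).toReal) (𝓝 x) (𝓝 0) := by
    have := (ENNReal.tendsto_toReal ENNReal.zero_ne_top).comp (LCP_cont hV hμ r x)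
    exact this
  refine squeeze_zero (fun _ => norm_nonneg _) (fun x' => ?_) h1
  rw [Real.norm_eq_abs]
  exact LCP_hsub hV hμ r A x x'

theorem LCP_hmeas (hV : IsLie V) (hμ : (vol V).IsHaarMeasure) (r : ℝ) (A : Set V) :
    Measurable (fun x => vol V (A ∩ bl x r)) := by
  have h1 : (fun x => vol V (A ∩ bl x r)) = fun x => ENNReal.ofReal (LCP_h r A x) := by
    funext x
    unfold LCP_h
    rw [ENNReal.ofReal_toReal (LCP_finA hV hμ r A x).ne]
  rw [h1]
  exact ENNReal.measurable_ofReal.comp (LCP_hcont hV hμ r A).measurable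

/-- The key inequality. -/
theorem LCP_key (hV : IsLie V) (hμ : (vol V).IsHaarMeasure) (r : ℝ) (E F K : Set V) (a b : ℝ≥0∞)
    (hE : MeasurableSet E) (hF : MeasurableSet F) (hK : MeasurableSet K)
    (h1 : ∫⁻ x in E, vol V (bl x r \ E) ∂(vol V) ≤ a) (h2 : ∫⁻ x in Fᶜ, vol V (bl x r \ Fᶜ) ∂(vol V) ≤ b) :
    vol V (Metric.ball (1 : V) r) * vol V ((E \ F) ∩ K) ≤
      a + b + ∫⁻ x in K, ENNReal.ofReal |LCP_h r E x - LCP_h r F x| ∂(vol V) := by
  have e1 : ∀ x, bl x r \ E = Eᶜ ∩ bl x r := fun x => by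
    rw [Set.sdiff_eq, Set.inter_comm]
  have e2 : ∀ x, bl x r \ Fᶜ = F ∩ bl x r := fun x => by
    rw [Set.sdiff_eq, compl_compl, Set.inter_comm]
  have hmS : MeasurableSet ((E \ F) ∩ K) := (hE.diff hF).inter hK
  have hpt : ∀ x ∈ (E \ F) ∩ K, vol V (Metric.ball (1 : V) r) ≤
      vol V (Eᶜ ∩ bl x r) + (vol V (F ∩ bl x r) + ENNReal.ofReal |LCP_h r E x - LCP_h r F x|) := by
    intro x _
    have h3 : vol V (bl x r) ≤ vol V (Eᶜ ∩ bl x r) + vol V (E ∩ bl x r) := by
      refine (measure_mono (t := (Eᶜ ∩ bl x r) ∪ (E ∩ bl x r)) ?_).trans (measure_union_le _ _)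
      intro y hy
      by_cases h : y ∈ E
      · exact Or.inr ⟨h, hy⟩
      · exact Or.inl ⟨h, hy⟩
    rw [LCP_vbl hV hμ] at h3
    refine h3.trans (add_le_add le_rfl ?_)
    have h4 : vol V (E ∩ bl x r) = ENNReal.ofReal (LCP_h r E x) := by
      unfold LCP_h
      rw [ENNReal.ofReal_toReal (LCP_finA hV hμ r E x).ne]
    have h5 : vol V (F ∩ bl x r) = ENNReal.ofReal (LCP_h r F x) := by
      unfold LCP_h
      rw [ENNReal.ofReal_toReal (LCP_finA hV hμ r F x).ne]
    rw [h4, h5, ← ENNReal.ofReal_add (LCP_h0 _ _ _) (abs_nonneg _)]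
    apply ENNReal.ofReal_le_ofReal
    have := le_abs_self (LCP_h r E x - LCP_h r F x)
    linarith
  have hm1 := LCP_hmeas hV hμ r Eᶜ
  have hm2 := LCP_hmeas hV hμ r F
  calc vol V (Metric.ball (1 : V) r) * vol V ((E \ F) ∩ K)
      = ∫⁻ _ in (E \ F) ∩ K, vol V (Metric.ball (1 : V) r) ∂(vol V) := by
        rw [setLIntegral_const]
    _ ≤ ∫⁻ x in (E \ F) ∩ K, (vol V (Eᶜ ∩ bl x r) + (vol V (F ∩ bl x r) +
          ENNReal.ofReal |LCP_h r E x - LCP_h r F x|)) ∂(vol V) :=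
        setLIntegral_mono' hmS hpt
    _ = ∫⁻ x in (E \ F) ∩ K, vol V (Eᶜ ∩ bl x r) ∂(vol V) + (∫⁻ x in (E \ F) ∩ K, vol V (F ∩ bl x r) ∂(vol V) +
          ∫⁻ x in (E \ F) ∩ K, ENNReal.ofReal |LCP_h r E x - LCP_h r F x| ∂(vol V)) := by
        rw [lintegral_add_left hm1, lintegral_add_left hm2]
    _ ≤ a + (b + ∫⁻ x in K, ENNReal.ofReal |LCP_h r E x - LCP_h r F x| ∂(vol V)) := by
        refine add_le_add ?_ (add_le_add ?_ ?_)
        · refine le_trans ?_ h1
          simp only [e1]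
          exact lintegral_mono_set (fun x hx => hx.1.1)
        · refine le_trans ?_ h2
          simp only [e2]
          exact lintegral_mono_set (fun x hx => hx.1.2)
        · exact lintegral_mono_set (fun x hx => hx.2)
    _ = _ := by rw [add_assoc]

/-- The diagonal sequence. -/
theorem LCP_diag (hV : IsLie V) (hμ : (vol V).IsHaarMeasure) (E : ℕ → Set V) (R : ℕ → ℝ) :
    ∃ φ : ℕ → ℕ, StrictMono φ ∧ ∀ (j : ℕ) (x : V),
      Tendsto (fun p : ℕ × ℕ => |LCP_h (R j) (E (φ p.1)) x - LCP_h (R j) (E (φ p.2)) x|)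
        (atTop ×ˢ atTop) (𝓝 0) := by
  haveI : ProperSpace V := FiniteDimensional.proper_real V
  obtain ⟨d, hd⟩ := TopologicalSpace.exists_dense_seq V
  obtain ⟨s, hs⟩ : ∃ s : Set (ℕ × ℕ → ℝ), s = Set.pi Set.univ
    (fun i => Set.Icc (0 : ℝ) (vol V (Metric.ball (1 : V) (R i.2))).toReal) := ⟨_, rfl⟩
  have hsc : IsCompact s := by
    rw [hs]
    exact isCompact_univ_pi fun i => isCompact_Icc
  obtain ⟨a, -, φ, hφ, hlim⟩ := hsc.tendsto_subseq (x := fun k i => LCP_h (R i.2) (E k) (d i.1)) (fun k => by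
    rw [hs]
    intro i _
    exact ⟨LCP_h0 _ _ _, LCP_hle hV hμ _ _ _⟩)
  refine ⟨φ, hφ, fun j x => ?_⟩
  have hlim2 : ∀ n : ℕ, Tendsto (fun k => LCP_h (R j) (E (φ k)) (d n)) atTop (𝓝 (a (n, j))) := by
    intro n
    exact (tendsto_pi_nhds.1 hlim) (n, j)
  rw [Metric.tendsto_nhds]
  intro ε hε
  -- a point of the dense sequence near `x`
  have h1 : ∀ᶠ x' in 𝓝 x, (vol V (symmDiff (bl x' (R j)) (bl x (R j)))).toReal < ε / 4 := by
    have h2 : Tendsto (fun x' : V => (vol V (symmDiff (bl x' (R j)) (bl x (R j)))).toReal) (𝓝 x) (𝓝 0) := by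
      have := (ENNReal.tendsto_toReal ENNReal.zero_ne_top).comp (LCP_cont hV hμ (R j) x)
      exact this
    exact (tendsto_order.1 h2).2 _ (by positivity)
  obtain ⟨x', ⟨n, rfl⟩, hn⟩ : ∃ x' ∈ Set.range d, (vol V (symmDiff (bl x' (R j)) (bl x (R j)))).toReal < ε / 4 := by
    obtain ⟨U, hU, hUo, hxU⟩ := eventually_nhds_iff.1 h1
    obtain ⟨y, hy1, hy2⟩ := hd.inter_open_nonempty U hUo ⟨x, hxU⟩
    exact ⟨y, hy2, hU y hy1⟩
  have h3 : ∀ k, |LCP_h (R j) (E k) (d n) - LCP_h (R j) (E k) x| < ε / 4 := fun k =>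
    (LCP_hsub hV hμ (R j) (E k) x (d n)).trans_lt hn
  have h4 : ∀ᶠ k in atTop, |LCP_h (R j) (E (φ k)) (d n) - a (n, j)| < ε / 4 := by
    have := (Metric.tendsto_nhds.1 (hlim2 n)) (ε / 4) (by positivity)
    simpa only [Real.dist_eq] using this
  have h5 := h4.prod_mk h4
  filter_upwards [h5] with p hp
  obtain ⟨hp1, hp2⟩ := hp
  have h6 := h3 (φ p.1)
  have h7 := h3 (φ p.2)
  rw [Real.dist_eq, sub_zero, abs_abs]
  rw [abs_lt] at hp1 hp2 h6 h7 ⊢
  constructor <;> linarith [hp1.1, hp1.2, hp2.1, hp2.2, h6.1, h6.2, h7.1, h7.2]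

/-- The symmetric differences tend to zero on compact sets. -/
theorem LCP_cauchy (hV : IsLie V) (hμ : (vol V).IsHaarMeasure) (E : ℕ → Set V) (R : ℕ → ℝ) (C M : ℝ)
    (hC : 0 < C) (hM : 0 ≤ M) (hE : ∀ k, MeasurableSet (E k)) (hR : ∀ j, 0 < R j) (hR0 : Tendsto R atTop (𝓝 0))
    (h1 : ∀ k j, ∫⁻ x in E k, vol V (bl x (R j) \ E k) ∂(vol V) ≤
      ENNReal.ofReal (C * R j) * vol V (Metric.ball (1 : V) (R j)) * ENNReal.ofReal M)
    (h2 : ∀ k j, ∫⁻ x in (E k)ᶜ, vol V (bl x (R j) \ (E k)ᶜ) ∂(vol V) ≤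
      ENNReal.ofReal (C * R j) * vol V (Metric.ball (1 : V) (R j)) * ENNReal.ofReal M) (φ : ℕ → ℕ)
    (hφ : ∀ (j : ℕ) (x : V), Tendsto (fun p : ℕ × ℕ => |LCP_h (R j) (E (φ p.1)) x - LCP_h (R j) (E (φ p.2)) x|)
        (atTop ×ˢ atTop) (𝓝 0)) (K : Set V) (hK : MeasurableSet K) (hKf : vol V K < ⊤) :
    Tendsto (fun p : ℕ × ℕ => vol V ((E (φ p.1) \ E (φ p.2)) ∩ K)) (atTop ×ˢ atTop) (𝓝 0) := by
  rw [ENNReal.tendsto_nhds_zero]
  intro ε hε
  obtain ⟨e, he0, hee⟩ : ∃ e : ℝ, 0 < e ∧ ENNReal.ofReal e ≤ ε := by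
    rcases eq_or_ne ε ⊤ with h | h
    · exact ⟨1, one_pos, by rw [h]; exact le_top⟩
    · exact ⟨ε.toReal, ENNReal.toReal_pos hε.ne' h, by rw [ENNReal.ofReal_toReal h]⟩
  -- choice of `j`
  obtain ⟨j, hj⟩ : ∃ j, 2 * (C * R j * M) ≤ e / 2 := by
    have h3 : Tendsto (fun j => 2 * (C * R j * M)) atTop (𝓝 0) := by
      have := ((hR0.const_mul C).mul_const M).const_mul 2
      simpa using this
    exact (((tendsto_order.1 h3).2 (e / 2) (by positivity)).exists).imp fun j hj => hj.le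
  obtain ⟨β, hβ⟩ : ∃ β, β = vol V (Metric.ball (1 : V) (R j)) := ⟨_, rfl⟩
  have hβ0 : 0 < β := by rw [hβ]; exact LCP_pos hV hμ _ (hR j)
  have hβt : β < ⊤ := by rw [hβ]; exact LCP_fin hV hμ _
  have hdom : Tendsto (fun p : ℕ × ℕ => ∫⁻ x in K, ENNReal.ofReal
      |LCP_h (R j) (E (φ p.1)) x - LCP_h (R j) (E (φ p.2)) x| ∂(vol V)) (atTop ×ˢ atTop) (𝓝 0) := by
    have h4 := tendsto_lintegral_filter_of_dominated_convergence (μ := (vol V).restrict K)
      (l := (atTop : Filter ℕ) ×ˢ (atTop : Filter ℕ))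
      (F := fun (p : ℕ × ℕ) x => ENNReal.ofReal |LCP_h (R j) (E (φ p.1)) x - LCP_h (R j) (E (φ p.2)) x|)
      (f := fun _ => 0) (fun _ => β) ?_ ?_ ?_ ?_
    · simpa using h4
    · refine Eventually.of_forall fun p => ?_
      exact ENNReal.measurable_ofReal.comp
        (((LCP_hcont hV hμ (R j) (E (φ p.1))).sub (LCP_hcont hV hμ (R j) (E (φ p.2)))).abs).measurable
    · refine Eventually.of_forall fun p => Eventually.of_forall fun x => ?_
      rw [← ENNReal.ofReal_toReal hβt.ne]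
      apply ENNReal.ofReal_le_ofReal
      rw [hβ, abs_le]
      have h5 := LCP_hle hV hμ (R j) (E (φ p.1)) x
      have h6 := LCP_hle hV hμ (R j) (E (φ p.2)) x
      have h7 := LCP_h0 (R j) (E (φ p.1)) x
      have h8 := LCP_h0 (R j) (E (φ p.2)) x
      constructor <;> linarith
    · rw [setLIntegral_const]
      exact (ENNReal.mul_lt_top hβt hKf).ne
    · refine Eventually.of_forall fun x => ?_
      have h9 := ENNReal.tendsto_ofReal (hφ j x)
      rwa [ENNReal.ofReal_zero] at h9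
  have hpos : 0 < β * ENNReal.ofReal (e / 2) := ENNReal.mul_pos hβ0.ne' (ENNReal.ofReal_pos.2 (by positivity)).ne'
  filter_upwards [(ENNReal.tendsto_nhds_zero.1 hdom) _ hpos] with p hp
  have h10 := LCP_key hV hμ (R j) (E (φ p.1)) (E (φ p.2)) K _ _ (hE _) (hE _) hK (h1 (φ p.1) j) (h2 (φ p.2) j)
  refine le_trans ?_ hee
  rw [← hβ] at h10
  have h11 : β * vol V ((E (φ p.1) \ E (φ p.2)) ∩ K) ≤ β * ENNReal.ofReal e := by
    refine h10.trans ((add_le_add le_rfl hp).trans ?_)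
    have h12 : ENNReal.ofReal (C * R j) * β * ENNReal.ofReal M = β * ENNReal.ofReal (C * R j * M) := by
      rw [ENNReal.ofReal_mul (p := C * R j) (mul_pos hC (hR j)).le]
      ring
    rw [h12, ← mul_add, ← mul_add]
    refine mul_le_mul_right ?_ β
    have hx : 0 ≤ C * R j * M := mul_nonneg (mul_pos hC (hR j)).le hM
    rw [← ENNReal.ofReal_add hx hx, ← ENNReal.ofReal_add (by linarith) (by linarith)]
    apply ENNReal.ofReal_le_ofReal
    linarith
  exact (ENNReal.mul_le_mul_iff_right hβ0.ne' hβt.ne).1 h11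

end LCP

theorem LCP (hAVE : AVE_stmt) (hPER : PER_stmt) (hVBL : VBL_stmt) (hMES : MES_stmt) : LCP_stmt := by
  intro V _ _ _ _ _ _ hV E M hE hper
  have hμ := (hMES V hV).1
  haveI := top hV
  haveI := hμ
  haveI : ProperSpace V := FiniteDimensional.proper_real V
  obtain ⟨C, r₀, hC, hr₀, hA⟩ := hAVE V hV
  obtain ⟨-, -, hcomp, -, -⟩ := hPER V hV
  obtain ⟨R, hR⟩ : ∃ R : ℕ → ℝ, R = fun j : ℕ => r₀ / ((j : ℝ) + 1) := ⟨_, rfl⟩
  have hRpos : ∀ j, 0 < R j := fun j => by rw [hR]; positivity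
  have hRle : ∀ j, R j ≤ r₀ := fun j => by
    rw [hR]
    exact div_le_self hr₀.le (by linarith [Nat.cast_nonneg (α := ℝ) j])
  have hR0 : Tendsto R atTop (𝓝 0) := by
    rw [hR]
    have := (tendsto_one_div_add_atTop_nhds_zero_nat (𝕜 := ℝ)).const_mul r₀
    simpa [div_eq_mul_inv] using this
  have hperM : ∀ k, per (E k) ≤ ENNReal.ofReal |M| := fun k =>
    (hper k).trans (ENNReal.ofReal_le_ofReal (le_abs_self M))
  obtain ⟨φ, hφ, hdiag⟩ := LCP_diag hV hμ E R
  have hcau := LCP_cauchy hV hμ E R C |M| hC (abs_nonneg _) hE hRpos hR0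
    (fun k j => (hA (E k) (hE k) (R j) (hRpos j) (hRle j)).trans (by gcongr; exact hperM k))
    (fun k j => (hA (E k)ᶜ (hE k).compl (R j) (hRpos j) (hRle j)).trans (by
      rw [hcomp (E k) (hE k)]
      gcongr
      exact hperM k)) φ hdiag
  -- the second subsequence
  obtain ⟨B, hB⟩ : ∃ B : ℕ → Set V, B = fun m : ℕ => Metric.closedBall (0 : V) (m : ℝ) := ⟨_, rfl⟩
  have hBm : ∀ m, MeasurableSet (B m) := fun m => by rw [hB]; exact Metric.isClosed_closedBall.measurableSet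
  have hBf : ∀ m, vol V (B m) < ⊤ := fun m => by
    rw [hB]
    exact Metric.isBounded_closedBall.measure_lt_top
  have hsd : ∀ m : ℕ, Tendsto (fun p : ℕ × ℕ => vol V (symmDiff (E (φ p.1)) (E (φ p.2)) ∩ B m))
      (atTop ×ˢ atTop) (𝓝 0) := by
    intro m
    have h1 := hcau (B m) (hBm m) (hBf m)
    have h2 : Tendsto (fun p : ℕ × ℕ => vol V ((E (φ p.2) \ E (φ p.1)) ∩ B m)) (atTop ×ˢ atTop) (𝓝 0) := by
      have := h1.comp (tendsto_snd.prodMk tendsto_fst)
      exact this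
    have h3 := h1.add h2
    rw [add_zero] at h3
    refine tendsto_of_tendsto_of_tendsto_of_le_of_le tendsto_const_nhds h3 (fun _ => zero_le) fun p => ?_
    refine (measure_mono (t := ((E (φ p.1) \ E (φ p.2)) ∩ B m) ∪ ((E (φ p.2) \ E (φ p.1)) ∩ B m)) ?_).trans
      (measure_union_le _ _)
    intro x hx
    rcases hx.1 with h | h
    · exact Or.inl ⟨h, hx.2⟩
    · exact Or.inr ⟨h, hx.2⟩
  obtain ⟨ψ, hψ, hψ2⟩ := extraction_forall_of_eventually'
    (P := fun m k => ∀ l ≥ k, vol V (symmDiff (E (φ k)) (E (φ l)) ∩ B m) ≤ (2 : ℝ≥0∞)⁻¹ ^ m) (fun m => by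
      have hp : (0 : ℝ≥0∞) < 2⁻¹ ^ m := ENNReal.pow_pos (by simp) m
      have h1 := (ENNReal.tendsto_nhds_zero.1 (hsd m)) _ hp
      rw [prod_atTop_atTop_eq, eventually_atTop] at h1
      obtain ⟨⟨N1, N2⟩, hN⟩ := h1
      refine ⟨max N1 N2, fun k hk l hl => hN (k, l) ⟨?_, ?_⟩⟩
      · exact (le_max_left _ _).trans hk
      · exact (le_max_right _ _).trans (hk.trans hl))
  obtain ⟨A, hAdef⟩ : ∃ A : ℕ → Set V, A = fun m => E (φ (ψ m)) := ⟨_, rfl⟩
  have hAm : ∀ m, MeasurableSet (A m) := fun m => by rw [hAdef]; exact hE _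
  have hsum : (∑' m, vol V (symmDiff (A m) (A (m + 1)) ∩ B m)) ≠ ⊤ := by
    have h1 : (∑' m, vol V (symmDiff (A m) (A (m + 1)) ∩ B m)) ≤ ∑' m : ℕ, (2 : ℝ≥0∞)⁻¹ ^ m := by
      refine ENNReal.tsum_le_tsum fun m => ?_
      rw [hAdef]
      exact hψ2 m (ψ (m + 1)) (hψ.monotone (Nat.le_succ m))
    refine (h1.trans_lt ?_).ne
    rw [ENNReal.tsum_geometric]
    norm_num
  have hae := ae_eventually_notMem hsum
  obtain ⟨F, hF⟩ : ∃ F : Set V, F = ⋂ n : ℕ, ⋃ m : ℕ, A (n + m) := ⟨_, rfl⟩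
  have hFm : MeasurableSet F := by
    rw [hF]
    exact MeasurableSet.iInter fun n => MeasurableSet.iUnion fun m => hAm _
  have hae2 : ∀ᵐ x ∂(vol V), ∀ᶠ m in atTop, ind (A m) x = ind F x := by
    filter_upwards [hae] with x hx
    have h1 : ∀ᶠ m in atTop, x ∈ B m := by
      obtain ⟨N, hN⟩ := exists_nat_ge ‖x‖
      filter_upwards [eventually_ge_atTop N] with m hm
      rw [hB, Metric.mem_closedBall, dist_zero_right]
      exact hN.trans (by exact_mod_cast hm)
    obtain ⟨N, hN⟩ := eventually_atTop.1 (hx.and h1)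
    have h2 : ∀ m, N ≤ m → (x ∈ A m ↔ x ∈ A (m + 1)) := by
      intro m hm
      obtain ⟨h3, h4⟩ := hN m hm
      by_contra hc
      apply h3
      refine ⟨?_, h4⟩
      rw [Set.mem_symmDiff]
      tauto
    have h3 : ∀ k, (x ∈ A (N + k) ↔ x ∈ A N) := by
      intro k
      induction k with
      | zero => rfl
      | succ k ih =>
        rw [← ih]
        exact (h2 (N + k) (by omega)).symm
    have h4 : x ∈ F ↔ x ∈ A N := by
      rw [hF, Set.mem_iInter]
      constructor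
      · intro h
        obtain ⟨m, hm⟩ := Set.mem_iUnion.1 (h N)
        exact (h3 m).1 hm
      · intro h n
        rw [Set.mem_iUnion]
        refine ⟨N, ?_⟩
        have := (h3 n).2 h
        rwa [add_comm N n] at this
    filter_upwards [eventually_ge_atTop N] with m hm
    obtain ⟨k, rfl⟩ := Nat.exists_eq_add_of_le hm
    unfold ind
    by_cases h5 : x ∈ A N
    · rw [Set.indicator_of_mem ((h3 k).2 h5), Set.indicator_of_mem (h4.2 h5)]
    · rw [Set.indicator_of_notMem (fun h => h5 ((h3 k).1 h)), Set.indicator_of_notMem (fun h => h5 (h4.1 h))]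
  refine ⟨φ ∘ ψ, F, hφ.comp hψ, hFm, ?_⟩
  intro K hK
  have hKf : vol V K < ⊤ := hK.measure_lt_top
  have h4 := tendsto_lintegral_of_dominated_convergence (μ := (vol V).restrict K)
      (F := fun (k : ℕ) x => ENNReal.ofReal |ind (E ((φ ∘ ψ) k)) x - ind F x|)
      (f := fun _ => 0) (fun _ => 2) ?_ ?_ ?_ ?_
  · simpa using h4
  · intro k
    exact ENNReal.measurable_ofReal.comp
      (((measurable_const.indicator (hE _)).sub (measurable_const.indicator hFm)).abs)
  · intro k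
    refine Eventually.of_forall fun x => ?_
    have h5 : |ind (E ((φ ∘ ψ) k)) x - ind F x| ≤ 2 := by
      have h6 : ∀ S : Set V, 0 ≤ ind S x ∧ ind S x ≤ 1 := by
        intro S
        unfold ind
        by_cases h : x ∈ S
        · rw [Set.indicator_of_mem h]; norm_num
        · rw [Set.indicator_of_notMem h]; norm_num
      have h7 := h6 (E ((φ ∘ ψ) k))
      have h8 := h6 F
      rw [abs_le]
      constructor <;> linarith [h7.1, h7.2, h8.1, h8.2]
    refine (ENNReal.ofReal_le_ofReal h5).trans ?_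
    rw [ENNReal.ofReal_ofNat]
  · rw [setLIntegral_const]
    exact (ENNReal.mul_lt_top (by norm_num) hKf).ne
  · refine ae_restrict_of_ae ?_
    filter_upwards [hae2] with x hx
    refine tendsto_const_nhds.congr' ?_
    filter_upwards [hx] with m hm
    rw [hAdef] at hm
    have h9 : ind (E ((φ ∘ ψ) m)) x = ind F x := hm
    rw [h9, sub_self, abs_zero, ENNReal.ofReal_zero]

end Pool.Agent.MLG
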