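import Pool.Agent.helper17.MLG.Spec

/-!
# Project mlg, row SPL: splitting
-/

set_option autoImplicit false
set_option linter.unusedSectionVars false

namespace Pool.Agent.MLG

open MeasureTheory Set Filter Topology Module
open scoped ENNReal ContDiff

section SPL

variable {V : Type} [NormedAddCommGroup V] [InnerProductSpace ℝ V] [FiniteDimensional ℝ V] [MeasurableSpace V]
  [BorelSpace V] [Group V]

theorem SPL_sd (E F C : Set V) (hE : MeasurableSet E) (hF : MeasurableSet F) (hC : MeasurableSet C) :
    vol V (symmDiff E F ∩ C) ≤ ∫⁻ x in C, ENNReal.ofReal |ind E x - ind F x| ∂(vol V) := by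
  have hm : MeasurableSet (symmDiff E F ∩ C) := (hE.symmDiff hF).inter hC
  calc vol V (symmDiff E F ∩ C) = ∫⁻ _ in symmDiff E F ∩ C, 1 ∂(vol V) := by
        rw [setLIntegral_const, one_mul]
    _ ≤ ∫⁻ x in symmDiff E F ∩ C, ENNReal.ofReal |ind E x - ind F x| ∂(vol V) := by
        refine setLIntegral_mono' hm fun x hx => ?_
        unfold ind
        rcases hx.1 with h | h
        · rw [Set.indicator_of_mem h.1, Set.indicator_of_notMem h.2]
          norm_num
        · rw [Set.indicator_of_mem h.1, Set.indicator_of_notMem h.2]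
          norm_num
    _ ≤ _ := lintegral_mono_set Set.inter_subset_right

theorem SPL_gr0 (f : V → ℝ) (x : V) (h : fderiv ℝ f x = 0) : gr f x = 0 := by
  unfold gr
  rw [h, ContinuousLinearMap.zero_comp, map_zero]

theorem SPL_vol (hV : IsLie V) (hμ : (vol V).IsHaarMeasure) (E : ℕ → Set V) (F : Set V) (v : ℝ)
    (hE : ∀ k, MeasurableSet (E k)) (hvol : ∀ k, vol V (E k) = ENNReal.ofReal v) (hF : MeasurableSet F)
    (hL : L1 (fun k => ind (E k)) (ind F)) : vol V F ≤ ENNReal.ofReal v := by
  haveI := top hV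
  haveI := hμ
  haveI : ProperSpace V := FiniteDimensional.proper_real V
  have h1 : ∀ C : Set V, IsCompact C → vol V (F ∩ C) ≤ ENNReal.ofReal v := by
    intro C hC
    have h2 := hL C hC
    have h3 : ∀ k, vol V (F ∩ C) ≤ ENNReal.ofReal v +
        ∫⁻ x in C, ENNReal.ofReal |ind (E k) x - ind F x| ∂(vol V) := by
      intro k
      refine (measure_mono (t := E k ∪ (symmDiff (E k) F ∩ C)) ?_).trans ((measure_union_le _ _).trans
        (add_le_add (hvol k).le (SPL_sd _ _ _ (hE k) hF hC.isClosed.measurableSet)))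
      intro x hx
      by_cases h : x ∈ E k
      · exact Or.inl h
      · exact Or.inr ⟨Or.inr ⟨hx.1, h⟩, hx.2⟩
    have h4 := h2.const_add (ENNReal.ofReal v)
    rw [add_zero] at h4
    exact ge_of_tendsto' h4 h3
  have h5 : F = ⋃ m : ℕ, F ∩ Metric.closedBall (0 : V) (m : ℝ) := by
    rw [← Set.inter_iUnion, Metric.iUnion_closedBall_nat, Set.inter_univ]
  have h6 : Monotone fun m : ℕ => F ∩ Metric.closedBall (0 : V) (m : ℝ) := by
    intro m n hmn
    exact Set.inter_subset_inter_right _ (Metric.closedBall_subset_closedBall (by exact_mod_cast hmn))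
  rw [h5, h6.measure_iUnion]
  exact iSup_le fun m => h1 _ (isCompact_closedBall _ _)

end SPL

theorem SPL (hCUT : CUT_stmt) (hCTF : CTF_stmt) (hGRR : GRR_stmt) (hMES : MES_stmt) (hPER : PER_stmt) :
    SPL_stmt := by
  intro V _ _ _ _ _ _ hV
  have hμ := (hMES V hV).1
  haveI := top hV
  haveI := hμ
  haveI : ProperSpace V := FiniteDimensional.proper_real V
  obtain ⟨C₀, hC₀, hctf⟩ := hCTF V hV
  refine ⟨2 * C₀, by positivity, ?_⟩
  intro E F v hv hE hvol hF hL
  have hvF := SPL_vol hV hμ E F v hE hvol hF hL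
  refine ⟨hvF, ?_⟩
  intro ε hε
  have hFt : vol V F ≠ ⊤ := (hvF.trans_lt ENNReal.ofReal_lt_top).ne
  have hε2 : ENNReal.ofReal (ε / 2) ≠ 0 := (ENNReal.ofReal_pos.2 (by positivity)).ne'
  obtain ⟨K, hKF, hK, hKm⟩ := hF.exists_isCompact_diff_lt hFt hε2
  obtain ⟨z, hz, hzK, hzC⟩ := hctf K hK
  have hC' : IsCompact (tsupport z) := hz.supp
  have hC'm : MeasurableSet (tsupport z) := hC'.isClosed.measurableSet
  have hev := (ENNReal.tendsto_nhds_zero.1 (hL (tsupport z) hC')) (ENNReal.ofReal (ε / 2))
    (ENNReal.ofReal_pos.2 (by positivity))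
  filter_upwards [hev] with k hk
  have hsd : vol V (symmDiff (E k) F ∩ tsupport z) ≤ ENNReal.ofReal (ε / 2) :=
    (SPL_sd _ _ _ (hE k) hF hC'm).trans hk
  obtain ⟨t, ht, hcut⟩ := hCUT V hV (E k) z (hE k) hz
  have hee : ENNReal.ofReal (ε / 2) + ENNReal.ofReal (ε / 2) = ENNReal.ofReal ε := by
    rw [← ENNReal.ofReal_add (by positivity) (by positivity)]
    congr 1
    ring
  have hKC : K ⊆ tsupport z := by
    intro x hx
    apply subset_tsupport
    rw [Function.mem_support, hzK x hx]
    exact one_ne_zero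
  have hSC : {x | t < z x} ⊆ tsupport z := by
    intro x hx
    apply subset_tsupport
    rw [Function.mem_support]
    have h1 : t < z x := hx
    linarith [ht.1]
  have hKS : K ⊆ {x | t < z x} := by
    intro x hx
    show t < z x
    rw [hzK x hx]
    exact ht.2
  have hSm : MeasurableSet {x | t < z x} :=
    (isOpen_lt continuous_const hz.smooth.continuous).measurableSet
  refine ⟨{x | t < z x}, hSm, ?_, ?_, ?_⟩
  · refine hcut.trans (add_le_add le_rfl ?_)
    have hgr : ∫⁻ x in E k, ‖gr z x‖ₑ ∂(vol V) ≤ ENNReal.ofReal C₀ * ENNReal.ofReal ε := by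
      obtain ⟨T, hT⟩ : ∃ T : Set V, T = (symmDiff (E k) F ∩ tsupport z) ∪ (F \ K) := ⟨_, rfl⟩
      have hTm : MeasurableSet T := by
        rw [hT]
        exact (((hE k).symmDiff hF).inter hC'm).union (hF.diff hK.isClosed.measurableSet)
      have h1 : ∫⁻ x in E k, ‖gr z x‖ₑ ∂(vol V) ≤ ∫⁻ x, T.indicator (fun _ => ENNReal.ofReal C₀) x ∂(vol V) := by
        rw [← lintegral_indicator (hE k)]
        refine lintegral_mono fun x => ?_
        by_cases hx : x ∈ E k
        · rw [Set.indicator_of_mem hx]
          by_cases hxT : x ∈ T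
          · rw [Set.indicator_of_mem hxT]
            have := hzC x
            rw [← ofReal_norm_eq_enorm]
            exact ENNReal.ofReal_le_ofReal this
          · rw [Set.indicator_of_notMem hxT]
            have h2 : fderiv ℝ z x = 0 := by
              by_cases hxC : x ∈ tsupport z
              · by_cases hxK : x ∈ K
                · apply IsLocalMax.fderiv_eq_zero
                  refine Eventually.of_forall fun y => ?_
                  rw [hzK x hxK]
                  exact hz.le_one y
                · exfalso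
                  apply hxT
                  rw [hT]
                  by_cases hxF : x ∈ F
                  · exact Or.inr ⟨hxF, hxK⟩
                  · exact Or.inl ⟨Or.inl ⟨hx, hxF⟩, hxC⟩
              · exact fderiv_of_notMem_tsupport ℝ hxC
            rw [SPL_gr0 z x h2, enorm_zero]
        · rw [Set.indicator_of_notMem hx]
          exact zero_le
      refine h1.trans ?_
      rw [lintegral_indicator_const hTm]
      refine mul_le_mul_right ?_ _
      rw [hT, ← hee]
      exact (measure_union_le _ _).trans (add_le_add hsd hKm.le)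
    calc 2 * ∫⁻ x in E k, ‖gr z x‖ₑ ∂(vol V) ≤ 2 * (ENNReal.ofReal C₀ * ENNReal.ofReal ε) :=
          mul_le_mul_right hgr 2
      _ = ENNReal.ofReal (2 * C₀ * ε) := by
          rw [ENNReal.ofReal_mul (by positivity), ENNReal.ofReal_mul (by norm_num), ENNReal.ofReal_ofNat, mul_assoc]
  · calc vol V F ≤ vol V ((E k ∩ {x | t < z x}) ∪ ((symmDiff (E k) F ∩ tsupport z) ∪ (F \ K))) := by
          refine measure_mono fun x hx => ?_
          by_cases hxK : x ∈ K
          · by_cases hxE : x ∈ E k
            · exact Or.inl ⟨hxE, hKS hxK⟩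
            · exact Or.inr (Or.inl ⟨Or.inr ⟨hx, hxE⟩, hKC hxK⟩)
          · exact Or.inr (Or.inr ⟨hx, hxK⟩)
      _ ≤ vol V (E k ∩ {x | t < z x}) + (vol V (symmDiff (E k) F ∩ tsupport z) + vol V (F \ K)) :=
          (measure_union_le _ _).trans (add_le_add le_rfl (measure_union_le _ _))
      _ ≤ vol V (E k ∩ {x | t < z x}) + (ENNReal.ofReal (ε / 2) + ENNReal.ofReal (ε / 2)) :=
          add_le_add le_rfl (add_le_add hsd hKm.le)
      _ = _ := by rw [hee]
  · calc vol V (E k ∩ {x | t < z x}) ≤ vol V (F ∪ (symmDiff (E k) F ∩ tsupport z)) := by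
          refine measure_mono fun x hx => ?_
          by_cases hxF : x ∈ F
          · exact Or.inl hxF
          · exact Or.inr ⟨Or.inl ⟨hx.1, hxF⟩, hSC hx.2⟩
      _ ≤ vol V F + vol V (symmDiff (E k) F ∩ tsupport z) := measure_union_le _ _
      _ ≤ vol V F + ENNReal.ofReal ε := by
          refine add_le_add le_rfl (hsd.trans (ENNReal.ofReal_le_ofReal (by linarith)))

end Pool.Agent.MLG
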